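import Pool.Agent.Work.MP_f25c59_an.Main

set_option autoImplicit false

namespace Pool.Agent.Results.MP_f25c59_an.FailsAP

open Pool.Agent.Work.MP_f25c59_an

/-- There is a pointed metric space `M` such that, for every `0 < p ≤ 1`, the Lipschitz free
`p`-space over `M` exists and (every model of it) fails the approximation property. -/
theorem result : ∃ (M : Type) (_ : MetricSpace M) (o : M), ∀ p : ℝ, 0 < p → p ≤ 1 →
    (∃ (Y : Type) (_ : AddCommGroup Y) (_ : Module ℝ Y) (N : Y → ℝ) (δ : M → Y),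
      IsFree p o N δ) ∧
    ∀ (Y : Type) [AddCommGroup Y] [Module ℝ Y] (N : Y → ℝ) (δ : M → Y),
      IsFree p o N δ → ¬ HasAP N := by
  obtain ⟨D⟩ := davie_exists
  exact ⟨VV D, inferInstance, 0, fun p hp hp1 =>
    ⟨exists_free hp hp1 0, fun Y _ _ N δ h => not_hasAP D hp hp1 N δ h⟩⟩

end Pool.Agent.Results.MP_f25c59_an.FailsAP
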